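import Pool.Agent.Helper70.JJ.Alg10
import Pool.Agent.Helper44.JJ.Grad
import Pool.Agent.Helper21.JJ.Rows

/-!
# JJ-16 a congruent copy with algebraic coordinates
-/

namespace Pool.Agent.Helper36.JJ

open Finset Module
open Pool.Agent.Helper36.Pin

namespace M16

theorem exists_rot (d0 d1 : ℝ) : ∃ c s : ℝ, c ^ 2 + s ^ 2 = 1 ∧ -s * d0 + c * d1 = 0 := by
  by_cases h : d0 ^ 2 + d1 ^ 2 = 0
  · have h0 : d0 = 0 := by nlinarith [sq_nonneg d0, sq_nonneg d1]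
    have h1 : d1 = 0 := by nlinarith [sq_nonneg d0, sq_nonneg d1]
    exact ⟨1, 0, by norm_num, by rw [h0, h1]; norm_num⟩
  · have hpos : 0 < d0 ^ 2 + d1 ^ 2 := lt_of_le_of_ne (by positivity) (Ne.symm h)
    refine ⟨d0 / √(d0 ^ 2 + d1 ^ 2), d1 / √(d0 ^ 2 + d1 ^ 2), ?_, ?_⟩
    · rw [div_pow, div_pow, Real.sq_sqrt hpos.le, ← add_div, div_self h]
    · ring

theorem isAlgebraic_mono {A B : Subalgebra ℚ ℝ} (h : A ≤ B) {x : ℝ} (hx : IsAlgebraic A x) :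
    IsAlgebraic B x := by
  obtain ⟨P, hP, hPx⟩ := hx
  refine ⟨P.map (Subalgebra.inclusion h).toRingHom, ?_, ?_⟩
  · exact (Polynomial.map_ne_zero_iff (Subalgebra.inclusion_injective h)).2 hP
  · rw [Polynomial.aeval_def, Polynomial.eval₂_map]
    rw [Polynomial.aeval_def] at hPx
    exact hPx

variable {V : Type} [Fintype V] [DecidableEq V]

/-- the indices of the free coordinates -/
def idx (X : Finset V) (x₀ x₁ : V) : Finset (V × Fin 2) :=
  (((X ×ˢ (Finset.univ : Finset (Fin 2))).erase (x₀, 0)).erase (x₀, 1)).erase (x₁, 1)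

theorem card_idx (X : Finset V) (x₀ x₁ : V) (h0 : x₀ ∈ X) (h1 : x₁ ∈ X) (h : x₀ ≠ x₁) :
    (idx X x₀ x₁).card + 3 = 2 * X.card := by
  have e0 : (x₀, (0 : Fin 2)) ∈ X ×ˢ (Finset.univ : Finset (Fin 2)) := by
    simp [h0]
  have e1 : (x₀, (1 : Fin 2)) ∈ (X ×ˢ (Finset.univ : Finset (Fin 2))).erase (x₀, 0) := by
    simp [h0]
  have e2 : (x₁, (1 : Fin 2)) ∈
      ((X ×ˢ (Finset.univ : Finset (Fin 2))).erase (x₀, 0)).erase (x₀, 1) := by
    simp [h1, h.symm]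
  have c0 := Finset.card_erase_add_one e0
  have c1 := Finset.card_erase_add_one e1
  have c2 := Finset.card_erase_add_one e2
  have c3 : (X ×ˢ (Finset.univ : Finset (Fin 2))).card = X.card * 2 := by
    rw [Finset.card_product]; simp
  unfold idx
  omega

theorem mem_idx {X : Finset V} {x₀ x₁ w : V} {i : Fin 2} :
    (w, i) ∈ idx X x₀ x₁ ↔ w ∈ X ∧ ¬ (w = x₀) ∧ ¬ (w = x₁ ∧ i = 1) := by
  unfold idx
  simp only [Finset.mem_erase, Finset.mem_product, Finset.mem_univ, and_true, ne_eq,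
    Prod.mk.injEq]
  constructor
  · rintro ⟨h1, h2, h3, h4⟩
    refine ⟨h4, ?_, h1⟩
    rintro rfl
    fin_cases i
    · exact h3 ⟨rfl, rfl⟩
    · exact h2 ⟨rfl, rfl⟩
  · rintro ⟨h1, h2, h3⟩
    exact ⟨h3, fun h => h2 h.1, fun h => h2 h.1, h1⟩

end M16

variable {V : Type} [Fintype V] [DecidableEq V]

open M16 in
theorem alg_copy (X : Finset V) (F : Finset (Sym2 V)) (hF : Sparse F) (hFX : F ⊆ X.sym2)
    (hX : 2 ≤ X.card) (hc : F.card + 3 = 2 * X.card) (p : V → Fin 2 → ℝ) (hp : Generic p)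
    (q : V → Fin 2 → ℝ)
    (hq : ∀ u v, s(u, v) ∈ F → dsq (q u) (q v) = dsq (p u) (p v)) :
    ∃ g : (Fin 2 → ℝ) → Fin 2 → ℝ, (∀ x y, dsq (g x) (g y) = dsq x y) ∧
      ∀ u ∈ X, ∀ i, IsAlgebraic (Algebra.adjoin ℚ {r : ℝ | ∃ w ∈ X, ∃ j, r = p w j})
        (g (q u) i) := by
  classical
  obtain ⟨x₀, h0, x₁, h1, h01⟩ := Finset.one_lt_card.1 (show 1 < X.card by omega)
  obtain ⟨c, s, hcs, hd⟩ := exists_rot (q x₁ 0 - q x₀ 0) (q x₁ 1 - q x₀ 1)
  obtain ⟨g, hg⟩ : ∃ g : (Fin 2 → ℝ) → Fin 2 → ℝ, g = fun x =>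
      ![c * (x 0 - q x₀ 0) + s * (x 1 - q x₀ 1), -s * (x 0 - q x₀ 0) + c * (x 1 - q x₀ 1)] :=
    ⟨_, rfl⟩
  have hg0 : ∀ x, g x 0 = c * (x 0 - q x₀ 0) + s * (x 1 - q x₀ 1) := by
    intro x; rw [hg]; rfl
  have hg1 : ∀ x, g x 1 = -s * (x 0 - q x₀ 0) + c * (x 1 - q x₀ 1) := by
    intro x; rw [hg]; rfl
  have hiso : ∀ x y, dsq (g x) (g y) = dsq x y := by
    intro x y
    unfold dsq
    rw [hg0, hg0, hg1, hg1]
    have : (c * (x 0 - q x₀ 0) + s * (x 1 - q x₀ 1) - (c * (y 0 - q x₀ 0) + s * (y 1 - q x₀ 1))) ^ 2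
      + (-s * (x 0 - q x₀ 0) + c * (x 1 - q x₀ 1) -
        (-s * (y 0 - q x₀ 0) + c * (y 1 - q x₀ 1))) ^ 2
      = (c ^ 2 + s ^ 2) * ((x 0 - y 0) ^ 2 + (x 1 - y 1) ^ 2) := by ring
    rw [this, hcs, one_mul]
  refine ⟨g, hiso, ?_⟩
  have hz0 : ∀ i, g (q x₀) i = 0 := by
    intro i
    fin_cases i
    · show g (q x₀) 0 = 0
      rw [hg0]; ring
    · show g (q x₀) 1 = 0
      rw [hg1]; ring
  have hz1 : g (q x₁) 1 = 0 := by rw [hg1]; exact hd
  -- the families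
  obtain ⟨z, hz⟩ : ∃ z : V × Fin 2 → ℝ, z = fun x => p x.1 x.2 := ⟨_, rfl⟩
  have hcfg : cfg z = p := by rw [hz]; rfl
  have hzi : AlgebraicIndependent ℚ z := by rw [hz]; exact hp
  have hy : AlgebraicIndependent ℚ (fun e : F => MvPolynomial.aeval z (lenE (e : Sym2 V))) := by
    apply algIndep_of_grad (fun e : F => lenE (e : Sym2 V)) z hzi
    have h2 : (fun e : F => grad (lenE (e : Sym2 V)) z)
        = (fun _ : F => (Units.mk0 (2 : ℝ) two_ne_zero)) • fun e : F => rowR p (e : Sym2 V) := by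
      funext e
      rw [grad_lenE, hcfg]
      rfl
    rw [h2]
    exact (rows_generic F hF p hp).units_smul _
  have hmem : ∀ u ∈ X, ∀ i, g (q u) i ∈ Algebra.adjoin ℚ
      (Set.range (fun k : idx X x₀ x₁ => g (q k.1.1) k.1.2)) := by
    intro u hu i
    by_cases hk : (u, i) ∈ idx X x₀ x₁
    · exact Algebra.subset_adjoin ⟨⟨(u, i), hk⟩, rfl⟩
    · rw [mem_idx] at hk
      have h3 : g (q u) i = 0 := by
        by_cases hu0 : u = x₀
        · rw [hu0]; exact hz0 i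
        · by_cases hu1 : u = x₁ ∧ i = 1
          · rw [hu1.1, hu1.2]; exact hz1
          · exact absurd ⟨hu, hu0, hu1⟩ hk
      rw [h3]
      exact Subalgebra.zero_mem _
  have hyx : ∀ e : F, MvPolynomial.aeval z (lenE (e : Sym2 V)) ∈ Algebra.adjoin ℚ
      (Set.range (fun k : idx X x₀ x₁ => g (q k.1.1) k.1.2)) := by
    rintro ⟨e, he⟩
    induction e using Sym2.ind with
    | _ u v =>
      show MvPolynomial.aeval z (lenE s(u, v)) ∈ _
      have huv := mk_mem_sym2.1 (hFX he)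
      rw [aeval_lenE_mk, hcfg, ← hq u v he, ← hiso]
      unfold dsq
      exact Subalgebra.add_mem _
        (Subalgebra.pow_mem _ (Subalgebra.sub_mem _ (hmem u huv.1 0) (hmem v huv.2 0)) 2)
        (Subalgebra.pow_mem _ (Subalgebra.sub_mem _ (hmem u huv.1 1) (hmem v huv.2 1)) 2)
  have hcard : Fintype.card (idx X x₀ x₁) ≤ Fintype.card F := by
    have := card_idx X x₀ x₁ h0 h1 h01
    rw [Fintype.card_coe, Fintype.card_coe]
    omega
  have hfin := (algIndep_of_card _ _ hy hyx hcard).2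
  have hle : Algebra.adjoin ℚ
      (Set.range (fun e : F => MvPolynomial.aeval z (lenE (e : Sym2 V)))) ≤
      Algebra.adjoin ℚ {r : ℝ | ∃ w ∈ X, ∃ j, r = p w j} := by
    apply Algebra.adjoin_le
    rintro _ ⟨⟨e, he⟩, rfl⟩
    induction e using Sym2.ind with
    | _ u v =>
      show MvPolynomial.aeval z (lenE s(u, v)) ∈ Algebra.adjoin ℚ {r : ℝ | ∃ w ∈ X, ∃ j, r = p w j}
      have huv := mk_mem_sym2.1 (hFX he)
      have hp' : ∀ w ∈ X, ∀ j, p w j ∈ Algebra.adjoin ℚ {r : ℝ | ∃ w ∈ X, ∃ j, r = p w j} :=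
        fun w hw j => Algebra.subset_adjoin ⟨w, hw, j, rfl⟩
      rw [aeval_lenE_mk, hcfg]
      unfold dsq
      exact Subalgebra.add_mem _
        (Subalgebra.pow_mem _ (Subalgebra.sub_mem _ (hp' u huv.1 0) (hp' v huv.2 0)) 2)
        (Subalgebra.pow_mem _ (Subalgebra.sub_mem _ (hp' u huv.1 1) (hp' v huv.2 1)) 2)
  intro u hu i
  by_cases hk : (u, i) ∈ idx X x₀ x₁
  · exact isAlgebraic_mono hle (hfin ⟨(u, i), hk⟩)
  · rw [mem_idx] at hk
    have h3 : g (q u) i = 0 := by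
      by_cases hu0 : u = x₀
      · rw [hu0]; exact hz0 i
      · by_cases hu1 : u = x₁ ∧ i = 1
        · rw [hu1.1, hu1.2]; exact hz1
        · exact absurd ⟨hu, hu0, hu1⟩ hk
    rw [h3]
    exact isAlgebraic_zero

end Pool.Agent.Helper36.JJ
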